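import Pool.Agent.Work.MP_9d0e17_ap.Interface
import Pool.Agent.Work.LV.A1
import Pool.Agent.Work.LV.E
import Pool.Agent.Work.MP_081200_nt.Div

/-!
# Block LV: large values of twisted short sums at separated points
-/

set_option autoImplicit false

namespace Pool.Agent.Work.AP90.helper30

open Finset Pool.Agent.Work.LV

/-- Burgess's inequality, Hölder's inequality, energy and moment together. -/
theorem comb (p : ℕ) [Fact p.Prime] (r : ℕ) (hr : 1 ≤ r) (CM CE : ℝ) (hCM : 0 ≤ CM)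
    (hCE : 0 ≤ CE) (β : ZMod p) (P : Finset ℕ) (𝓜 : Finset ℤ) (N B : ℕ) (X D t : ℝ)
    (hX : X = P.card * 𝓜.card * N) (hX0 : 0 < X) (hD : 0 ≤ D) (hcop : ∀ a ∈ P, a.Coprime p)
    (hM : ∑ x : ZMod p, TB p β B x ^ (2 * r) ≤
      CM * ((B : ℝ) ^ r * p + (B : ℝ) ^ (2 * r) * Real.sqrt p))
    (hE : ∑ x : ZMod p, (vv p P 𝓜 N x : ℝ) ^ 2 ≤ CE * (D * X + X ^ 2 / p))
    (hB : Real.sqrt p ≤ (B : ℝ) ^ r) (hB0 : (0 : ℝ) < B) (ht : 0 ≤ t)
    (hcore : X * (B * t) ≤ ∑ x : ZMod p, (vv p P 𝓜 N x : ℝ) * TB p β B x) :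
    X ^ 2 * t ^ (2 * r) ≤ 2 * CE * CM * (D * X + X ^ 2 / p) * Real.sqrt p := by
  have hp0 : (0 : ℝ) < p := by exact_mod_cast (Fact.out : p.Prime).pos
  have h2 := holder Finset.univ (fun x : ZMod p => (vv p P 𝓜 N x : ℝ))
    (fun x => TB p β B x) (fun _ => Nat.cast_nonneg _) (fun _ => norm_nonneg _) r hr
  rw [sum_vv_one P 𝓜 N hcop, ← hX] at h2
  have h0 : 0 ≤ X * (B * t) := by positivity
  have h4 : (X * (B * t)) ^ (2 * r) ≤
      X ^ (2 * r - 2) * (CE * (D * X + X ^ 2 / p)) *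
        (CM * (2 * ((B : ℝ) ^ (2 * r) * Real.sqrt p))) := by
    refine (pow_le_pow_left₀ h0 hcore _).trans (h2.trans ?_)
    have hm : (B : ℝ) ^ r * p ≤ (B : ℝ) ^ (2 * r) * Real.sqrt p := by
      have e1 : (p : ℝ) = Real.sqrt p * Real.sqrt p := (Real.mul_self_sqrt hp0.le).symm
      have e2 : (B : ℝ) ^ (2 * r) = (B : ℝ) ^ r * (B : ℝ) ^ r := by
        rw [← pow_add]; congr 1; ring
      have hs : 0 ≤ Real.sqrt p := Real.sqrt_nonneg _
      have hBr : 0 ≤ (B : ℝ) ^ r := by positivity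
      calc (B : ℝ) ^ r * p = (B : ℝ) ^ r * (Real.sqrt p * Real.sqrt p) := by rw [← e1]
        _ ≤ (B : ℝ) ^ r * ((B : ℝ) ^ r * Real.sqrt p) := by gcongr
        _ = _ := by rw [e2]; ring
    have hm2 : ∑ x : ZMod p, TB p β B x ^ (2 * r) ≤
        CM * (2 * ((B : ℝ) ^ (2 * r) * Real.sqrt p)) := by
      refine hM.trans ?_
      gcongr
      linarith
    have hs : 0 ≤ ∑ x : ZMod p, TB p β B x ^ (2 * r) :=
      Finset.sum_nonneg fun x _ => pow_nonneg (norm_nonneg _) _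
    have hs2 : 0 ≤ CE * (D * X + X ^ 2 / p) := by positivity
    have hX2 : 0 ≤ X ^ (2 * r - 2) := by positivity
    exact mul_le_mul (mul_le_mul_of_nonneg_left hE hX2) hm2 hs (mul_nonneg hX2 hs2)
  have e4 : (X * (B * t)) ^ (2 * r) =
      (X ^ (2 * r - 2) * (B : ℝ) ^ (2 * r)) * (X ^ 2 * t ^ (2 * r)) := by
    rw [mul_pow, mul_pow]
    have : X ^ (2 * r) = X ^ (2 * r - 2) * X ^ 2 := by
      rw [← pow_add]; congr 1; omega
    rw [this]
    ring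
  have e5 : X ^ (2 * r - 2) * (CE * (D * X + X ^ 2 / p)) *
        (CM * (2 * ((B : ℝ) ^ (2 * r) * Real.sqrt p))) =
      (X ^ (2 * r - 2) * (B : ℝ) ^ (2 * r)) *
        (2 * CE * CM * (D * X + X ^ 2 / p) * Real.sqrt p) := by ring
  rw [e4, e5] at h4
  exact le_of_mul_le_mul_left h4 (by positivity)

/-- The final computation: from the inequality of `comb` to the number of large values.
`Q` is the prime, `s` its square root. -/
theorem final (Q s ε δ K Cd X D N J P B w : ℝ) (r : ℕ) (hQ1 : 1 ≤ Q) (hs : s = Q ^ (1 / 2 : ℝ))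
    (hε0 : 0 < ε) (hε : ε ≤ 1 / 2) (hδ0 : 0 < δ) (hδ1 : 2 * r * δ ≤ ε / 32) (hδ2 : 2 * δ ≤ ε / 96)
    (hK : 0 ≤ K) (hX0 : 0 < X) (hCd : 0 ≤ Cd) (hD : D ≤ Cd * Q ^ (ε / 8)) (hN : 0 < N)
    (hJ : 0 ≤ J) (hB0 : 0 < B) (hB : B ≤ 2 * Q ^ w) (hw : 2 * w ≤ ε / 8)
    (hXd : X = P * J * N) (hP : N * Q ^ (-(2 * δ)) / (1040 * B ^ 2) ≤ P)
    (hmain : 4 ^ r * (X ^ 2 * (Q ^ (-δ) / 2) ^ (2 * r)) ≤ K * (D * X + X ^ 2 / Q) * s)
    (hq1 : 2 * K ≤ Q ^ (1 / 4 : ℝ)) (hq2 : 8320 * K * Cd ≤ Q ^ (ε / 2)) :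
    J * N ^ 2 ≤ Q ^ (1 / 2 + ε) := by
  have hQ0 : 0 < Q := by linarith
  have hmono : ∀ a b : ℝ, a ≤ b → Q ^ a ≤ Q ^ b := fun a b h =>
    Real.rpow_le_rpow_of_exponent_le hQ1 h
  -- step 1: X * Q^(-ε/32) ≤ K (D + X/Q) s
  have h1 : Q ^ (-(ε / 32)) ≤ 4 ^ r * (Q ^ (-δ) / 2) ^ (2 * r) := by
    have e : 4 ^ r * (Q ^ (-δ) / 2) ^ (2 * r) = Q ^ (-(2 * r * δ)) := by
      rw [div_pow, pow_mul 2 2 r, ← Real.rpow_natCast (Q ^ (-δ)), ← Real.rpow_mul hQ0.le]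
      have : (4 : ℝ) ^ r ≠ 0 := by positivity
      norm_num
      rw [mul_div_cancel₀ _ this]
      congr 1
      ring
    rw [e]
    exact hmono _ _ (by linarith)
  have h2 : X * Q ^ (-(ε / 32)) ≤ K * (D + X / Q) * s := by
    have h3 : X ^ 2 * Q ^ (-(ε / 32)) ≤ K * (D * X + X ^ 2 / Q) * s := by
      refine le_trans ?_ hmain
      have := mul_le_mul_of_nonneg_left h1 (by positivity : 0 ≤ X ^ 2)
      linarith
    have h4 : (X * Q ^ (-(ε / 32))) * X ≤ (K * (D + X / Q) * s) * X := by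
      calc (X * Q ^ (-(ε / 32))) * X = X ^ 2 * Q ^ (-(ε / 32)) := by ring
        _ ≤ _ := h3
        _ = _ := by ring
    exact le_of_mul_le_mul_right h4 hX0
  -- absorb
  have h5 : K * (X / Q) * s ≤ X * Q ^ (-(ε / 32)) / 2 := by
    have h6 : s / Q = Q ^ (-(1 / 2) : ℝ) := by
      rw [hs]
      nth_rewrite 2 [← Real.rpow_one Q]
      rw [← Real.rpow_sub hQ0]
      norm_num
    have h7 : Q ^ (-(1 / 2) : ℝ) = Q ^ (-(1 / 4) : ℝ) * Q ^ (-(1 / 4) : ℝ) := by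
      rw [← Real.rpow_add hQ0]; norm_num
    have h8 : K * Q ^ (-(1 / 4) : ℝ) ≤ 1 / 2 := by
      have h9 : 0 < Q ^ (-(1 / 4) : ℝ) := by positivity
      have h10 := mul_le_mul_of_nonneg_right hq1 h9.le
      rw [← Real.rpow_add hQ0] at h10
      norm_num at h10
      norm_num
      linarith
    have h11 : Q ^ (-(1 / 4) : ℝ) ≤ Q ^ (-(ε / 32)) := hmono _ _ (by linarith)
    calc K * (X / Q) * s = X * (K * (s / Q)) := by ring
      _ = X * ((K * Q ^ (-(1 / 4) : ℝ)) * Q ^ (-(1 / 4) : ℝ)) := by rw [h6, h7]; ring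
      _ ≤ X * ((1 / 2) * Q ^ (-(ε / 32))) := by
          apply mul_le_mul_of_nonneg_left _ hX0.le
          exact mul_le_mul h8 h11 (by positivity) (by norm_num)
      _ = _ := by ring
  have hs0 : 0 < s := by rw [hs]; positivity
  have h12 : X * Q ^ (-(ε / 32)) ≤ 2 * K * (Cd * Q ^ (ε / 8)) * s := by
    have e : K * (D + X / Q) * s = K * D * s + K * (X / Q) * s := by ring
    rw [e] at h2
    have h13 : K * D * s ≤ K * (Cd * Q ^ (ε / 8)) * s := by gcongr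
    linarith
  have h14 : X ≤ 2 * K * Cd * Q ^ (1 / 2 + ε / 8 + ε / 32) := by
    have h15 := mul_le_mul_of_nonneg_right h12 (by positivity : 0 ≤ Q ^ (ε / 32))
    have e1 : X * Q ^ (-(ε / 32)) * Q ^ (ε / 32) = X := by
      rw [mul_assoc, ← Real.rpow_add hQ0]; simp
    rw [e1] at h15
    refine h15.trans (le_of_eq ?_)
    rw [hs, Real.rpow_add hQ0, Real.rpow_add hQ0]
    ring
  -- lower bound of X
  have h16 : B ^ 2 ≤ 4 * Q ^ (ε / 8) := by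
    calc B ^ 2 ≤ (2 * Q ^ w) ^ 2 := by gcongr
      _ = 4 * Q ^ (2 * w) := by
          rw [mul_pow, ← Real.rpow_natCast (Q ^ w), ← Real.rpow_mul hQ0.le]
          norm_num
          congr 1
          ring
      _ ≤ _ := by
          have := hmono _ _ hw
          linarith
  have h17 : N * Q ^ (-(2 * δ)) / (4160 * Q ^ (ε / 8)) ≤ P := by
    refine le_trans ?_ hP
    apply div_le_div_of_nonneg_left (by positivity) (by positivity)
    linarith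
  have h18 : J * N ^ 2 ≤ 4160 * Q ^ (ε / 8) * Q ^ (2 * δ) * X := by
    have h19 : J * N * (N * Q ^ (-(2 * δ)) / (4160 * Q ^ (ε / 8))) ≤ X := by
      rw [hXd]
      have := mul_le_mul_of_nonneg_left h17 (by positivity : 0 ≤ J * N)
      linarith
    have h20 := mul_le_mul_of_nonneg_left h19
      (by positivity : 0 ≤ 4160 * Q ^ (ε / 8) * Q ^ (2 * δ))
    refine le_trans (le_of_eq ?_) h20
    have e2 : Q ^ (2 * δ) * Q ^ (-(2 * δ)) = 1 := by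
      rw [← Real.rpow_add hQ0]; simp
    have h21 : Q ^ (ε / 8) ≠ 0 := by positivity
    field_simp
    linear_combination (-J) * e2
  calc J * N ^ 2 ≤ 4160 * Q ^ (ε / 8) * Q ^ (2 * δ) * X := h18
    _ ≤ 4160 * Q ^ (ε / 8) * Q ^ (2 * δ) * (2 * K * Cd * Q ^ (1 / 2 + ε / 8 + ε / 32)) := by
        gcongr
    _ = (8320 * K * Cd) * (Q ^ (ε / 8) * Q ^ (2 * δ) * Q ^ (1 / 2 + ε / 8 + ε / 32)) := by ring
    _ ≤ Q ^ (ε / 2) * (Q ^ (ε / 8) * Q ^ (2 * δ) * Q ^ (1 / 2 + ε / 8 + ε / 32)) := by gcongr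
    _ = Q ^ (ε / 2 + (ε / 8 + 2 * δ + (1 / 2 + ε / 8 + ε / 32))) := by
        rw [← Real.rpow_add hQ0, ← Real.rpow_add hQ0, ← Real.rpow_add hQ0]
    _ ≤ Q ^ (1 / 2 + ε) := hmono _ _ (by linarith)

/-- The theorem for `ε ≤ 1/2`. -/
theorem small (hM : Stmt_M) (hC : Stmt_CORE) (hCell : Stmt_CELL) (ε : ℝ) (hε : 0 < ε)
    (hε2 : ε ≤ 1 / 2) : ∃ δ : ℝ, 0 < δ ∧ ∃ P0 : ℕ, ∀ (p : ℕ) [Fact p.Prime], P0 ≤ p →
    ∀ (c : ZMod p) (N : ℕ), (p : ℝ) ^ ε ≤ N → 8 * N ≤ p → ∀ 𝓜 : Finset ℤ, Sep p N 𝓜 →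
      (∀ M ∈ 𝓜, N * (p : ℝ) ^ (-δ) ≤ ‖SS p c (M : ZMod p) N‖) →
        (𝓜.card : ℝ) * N ^ 2 ≤ (p : ℝ) ^ (1 / 2 + ε) := by
  obtain ⟨r, hr⟩ : ∃ r : ℕ, r = ⌈8 / ε⌉₊ := ⟨_, rfl⟩
  have hr1 : 8 / ε ≤ r := by rw [hr]; exact Nat.le_ceil _
  have hrpos : (0 : ℝ) < r := lt_of_lt_of_le (by positivity) hr1
  have hr16 : (16 : ℝ) ≤ r := by
    refine le_trans ?_ hr1
    rw [le_div_iff₀ hε]
    linarith
  have hr0 : 1 ≤ r := by
    have : 0 < r := by exact_mod_cast hrpos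
    omega
  obtain ⟨w, hw⟩ : ∃ w : ℝ, w = 1 / (2 * (r : ℝ)) := ⟨_, rfl⟩
  have hw0 : 0 < w := by rw [hw]; positivity
  have hwε : 2 * w ≤ ε / 8 := by
    rw [hw]
    rw [div_le_iff₀ hε] at hr1
    have : 2 * (1 / (2 * (r : ℝ))) = 1 / r := by field_simp
    rw [this, div_le_iff₀ hrpos]
    linarith
  obtain ⟨δ, hδ⟩ : ∃ δ : ℝ, δ = ε / (64 * (r + 2)) := ⟨_, rfl⟩
  have hδ0 : 0 < δ := by rw [hδ]; positivity
  have hδ1 : 2 * r * δ ≤ ε / 32 := by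
    rw [hδ]
    rw [mul_div_assoc', div_le_div_iff₀ (by positivity) (by norm_num)]
    have : 0 ≤ ε * 2 := by positivity
    nlinarith
  have hδ2 : 2 * δ ≤ ε / 96 := by
    rw [hδ]
    rw [mul_div_assoc', div_le_div_iff₀ (by positivity) (by norm_num)]
    nlinarith
  obtain ⟨CM, hCM, hMom⟩ := hM r hr0
  obtain ⟨CE, hCE, hEn⟩ := Pool.Agent.Work.LV.stmt_E
  obtain ⟨Cd, hCd, hdiv⟩ := Pool.Agent.Work.MP_081200_nt.div_bound (ε / 8) (by positivity)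
  obtain ⟨K, hK⟩ : ∃ K : ℝ, K = 4 ^ r * (2 * CE * CM) := ⟨_, rfl⟩
  have hK0 : 0 ≤ K := by rw [hK]; positivity
  have hev : ∀ᶠ Q : ℝ in Filter.atTop, 2 * K ≤ Q ^ (1 / 4 : ℝ) ∧ 8320 * K * Cd ≤ Q ^ (ε / 2) ∧
      32 ≤ Q ^ (ε / 2) ∧ 4 ≤ Q ∧ 3 ≤ Q ^ (1 / 2 : ℝ) := by
    exact ((tendsto_rpow_atTop (by norm_num : (0 : ℝ) < 1 / 4)).eventually_ge_atTop _).and
      (((tendsto_rpow_atTop (by positivity : 0 < ε / 2)).eventually_ge_atTop _).and
      (((tendsto_rpow_atTop (by positivity : 0 < ε / 2)).eventually_ge_atTop _).and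
      ((Filter.eventually_ge_atTop 4).and
      ((tendsto_rpow_atTop (by norm_num : (0 : ℝ) < 1 / 2)).eventually_ge_atTop _))))
  obtain ⟨Q0, hQ0⟩ := Filter.eventually_atTop.mp hev
  refine ⟨δ, hδ0, ⌈Q0⌉₊, ?_⟩
  intro p _ hp c N hN h8 𝓜 hsep hV
  have hQ0p : Q0 ≤ p := (Nat.le_ceil _).trans (by exact_mod_cast hp)
  obtain ⟨q1, q2, q3, q4, q5⟩ := hQ0 p hQ0p
  have hp1 : (1 : ℝ) ≤ p := by linarith
  have hp0 : (0 : ℝ) < p := by linarith
  have hmono : ∀ a b : ℝ, a ≤ b → (p : ℝ) ^ a ≤ (p : ℝ) ^ b := fun a b h =>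
    Real.rpow_le_rpow_of_exponent_le hp1 h
  rcases Finset.eq_empty_or_nonempty 𝓜 with hemp | ⟨M0, hM0⟩
  · rw [hemp]
    simp only [Finset.card_empty, Nat.cast_zero, zero_mul]
    positivity
  have hN0 : (0 : ℝ) < N := lt_of_lt_of_le (by positivity) hN
  have hN1 : 1 ≤ N := by
    have : 0 < N := by exact_mod_cast hN0
    omega
  obtain ⟨V, hVd⟩ : ∃ V : ℝ, V = N * (p : ℝ) ^ (-δ) := ⟨_, rfl⟩
  rw [← hVd] at hV
  have hV0 : 0 < V := by rw [hVd]; positivity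
  have hpδ : (p : ℝ) ^ (-δ) ≤ 1 := Real.rpow_le_one_of_one_le_of_nonpos hp1 (by linarith)
  have hVN : V ≤ N := by
    rw [hVd]
    exact mul_le_of_le_one_right hN0.le hpδ
  -- B
  obtain ⟨B, hB⟩ : ∃ B : ℕ, B = ⌈(p : ℝ) ^ w⌉₊ := ⟨_, rfl⟩
  have hpw1 : 1 ≤ (p : ℝ) ^ w := Real.one_le_rpow hp1 hw0.le
  have hB1 : (p : ℝ) ^ w ≤ B := by rw [hB]; exact Nat.le_ceil _
  have hB2 : (B : ℝ) ≤ 2 * (p : ℝ) ^ w := by
    have := Nat.ceil_lt_add_one (a := (p : ℝ) ^ w) (by linarith)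
    rw [hB]
    linarith
  have hBpos : (0 : ℝ) < B := by linarith
  have hB1' : (1 : ℝ) ≤ B := by linarith
  have hsq : Real.sqrt p = (p : ℝ) ^ (1 / 2 : ℝ) := Real.sqrt_eq_rpow p
  have hBr : Real.sqrt p ≤ (B : ℝ) ^ r := by
    rw [hsq]
    calc (p : ℝ) ^ (1 / 2 : ℝ) = ((p : ℝ) ^ w) ^ r := by
          rw [← Real.rpow_natCast, ← Real.rpow_mul hp0.le, hw]
          congr 1
          field_simp
      _ ≤ (B : ℝ) ^ r := by gcongr
  have hBp : B < p := by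
    have h1 : (B : ℝ) < p := by
      calc (B : ℝ) ≤ 2 * (p : ℝ) ^ w := hB2
        _ ≤ 2 * (p : ℝ) ^ (1 / 2 : ℝ) := by
            have := hmono w (1 / 2) (by linarith)
            linarith
        _ < (p : ℝ) ^ (1 / 2 : ℝ) * (p : ℝ) ^ (1 / 2 : ℝ) := by
            have : 0 < (p : ℝ) ^ (1 / 2 : ℝ) := by positivity
            nlinarith
        _ = p := by
            rw [← Real.rpow_add hp0]; norm_num
    exact_mod_cast h1
  -- G
  obtain ⟨G, hG⟩ : ∃ G : ℕ, G = ⌈64 * B * (p : ℝ) ^ δ⌉₊ := ⟨_, rfl⟩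
  have hpδ1 : 1 ≤ (p : ℝ) ^ δ := Real.one_le_rpow hp1 hδ0.le
  have hG64 : 64 ≤ 64 * B * (p : ℝ) ^ δ := by
    have : (1 : ℝ) * 1 ≤ B * (p : ℝ) ^ δ := mul_le_mul hB1' hpδ1 (by norm_num) hBpos.le
    linarith
  have hG1 : 64 * B * (p : ℝ) ^ δ ≤ G := by rw [hG]; exact Nat.le_ceil _
  have hG2 : (G : ℝ) ≤ 65 * B * (p : ℝ) ^ δ := by
    have := Nat.ceil_lt_add_one (a := 64 * B * (p : ℝ) ^ δ) (by linarith)
    rw [hG]
    have h1 : (1 : ℝ) * 1 ≤ B * (p : ℝ) ^ δ := mul_le_mul hB1' hpδ1 (by norm_num) hBpos.le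
    linarith
  have hGpos : (0 : ℝ) < G := by linarith
  have hG0 : 1 ≤ G := by
    have : 0 < G := by exact_mod_cast hGpos
    omega
  have hNη : N * (2 * Real.pi * B / G) ≤ V / 8 := by
    have hpi : Real.pi < 3.15 := Real.pi_lt_d2
    have hpipos := Real.pi_pos
    have h1 : 2 * Real.pi * B / G ≤ (p : ℝ) ^ (-δ) / 8 := by
      rw [div_le_div_iff₀ hGpos (by norm_num)]
      have h2 : (p : ℝ) ^ (-δ) * (64 * B * (p : ℝ) ^ δ) ≤ (p : ℝ) ^ (-δ) * G := by gcongr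
      have e : (p : ℝ) ^ (-δ) * (p : ℝ) ^ δ = 1 := by
        rw [← Real.rpow_add hp0]; simp
      have e2 : (p : ℝ) ^ (-δ) * (64 * B * (p : ℝ) ^ δ) = 64 * B := by
        linear_combination (64 * B) * e
      rw [e2] at h2
      have h3 : 2 * Real.pi * B * 8 ≤ 64 * B := by
        have : Real.pi * B ≤ 3.15 * B := by gcongr
        linarith
      linarith
    have h4 := mul_le_mul_of_nonneg_left h1 hN0.le
    rw [hVd]
    linarith
  -- Y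
  obtain ⟨Y, hY⟩ : ∃ Y : ℕ, Y = ⌊V / (8 * B)⌋₊ := ⟨_, rfl⟩
  have hY1 : (Y : ℝ) ≤ V / (8 * B) := by rw [hY]; exact Nat.floor_le (by positivity)
  have hY2 : V / (8 * B) - 1 < Y := by rw [hY]; exact Nat.sub_one_lt_floor _
  have hYB : 2 * (Y : ℝ) * B ≤ V / 4 := by
    rw [le_div_iff₀ (by positivity)] at hY1
    linarith
  have hYN : Y ≤ N := by
    have : (Y : ℝ) ≤ N := by
      refine hY1.trans (le_trans ?_ hVN)
      exact div_le_self hV0.le (by linarith)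
    exact_mod_cast this
  have hVB1 : 1 ≤ V / (16 * B) := by
    rw [le_div_iff₀ (by positivity)]
    have h1 : (p : ℝ) ^ (ε / 2) * (p : ℝ) ^ w ≤ V := by
      rw [hVd]
      calc (p : ℝ) ^ (ε / 2) * (p : ℝ) ^ w = (p : ℝ) ^ (ε / 2 + w) := by
            rw [← Real.rpow_add hp0]
        _ ≤ (p : ℝ) ^ (ε + -δ) := hmono _ _ (by linarith)
        _ = (p : ℝ) ^ ε * (p : ℝ) ^ (-δ) := by rw [Real.rpow_add hp0]
        _ ≤ _ := by gcongr
    have h2 : 32 * (p : ℝ) ^ w ≤ (p : ℝ) ^ (ε / 2) * (p : ℝ) ^ w := by gcongr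
    linarith
  have hY3 : V / (16 * B) ≤ Y := by
    have e : V / (8 * B) = V / (16 * B) + V / (16 * B) := by field_simp; norm_num
    rw [e] at hY2
    linarith
  obtain ⟨β, P, hPsub, hPcard, hPclose⟩ := hCell p c (Icc 1 Y) G B hG0
  have hPmem : ∀ a ∈ P, 1 ≤ a ∧ a ≤ Y := fun a ha => by
    have := hPsub ha
    rw [Finset.mem_Icc] at this
    exact this
  have hYp : Y < p := by omega
  have hcop : ∀ a ∈ P, a.Coprime p := by
    intro a ha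
    have h1 := hPmem a ha
    have h2 : ¬ p ∣ a := fun h => by
      have := Nat.le_of_dvd (by omega) h
      omega
    exact ((Nat.Prime.coprime_iff_not_dvd (Fact.out : p.Prime)).mpr h2).symm
  have hcore := hC p c β P 𝓜 N B Y V (2 * Real.pi * B / G)
    (fun a ha => ⟨hcop a ha, (hPmem a ha).2⟩) hPclose hV
  -- P is not empty
  have hYcard : (Y : ℝ) ≤ G * P.card := by
    have h1 : (Icc 1 Y).card = Y := by simp
    rw [h1] at hPcard
    exact_mod_cast hPcard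
  have hYpos : (0 : ℝ) < Y := by linarith
  have hPpos : (0 : ℝ) < P.card := by
    by_contra h
    push Not at h
    have : (G : ℝ) * P.card ≤ 0 := mul_nonpos_of_nonneg_of_nonpos hGpos.le h
    linarith
  have hJpos : (0 : ℝ) < 𝓜.card := by exact_mod_cast Finset.card_pos.mpr ⟨M0, hM0⟩
  obtain ⟨X, hX⟩ : ∃ X : ℝ, X = P.card * 𝓜.card * N := ⟨_, rfl⟩
  have hXpos : 0 < X := by rw [hX]; positivity
  -- divisors
  obtain ⟨D, hD⟩ : ∃ D : ℕ, D = ⌊Cd * (p : ℝ) ^ (ε / 8)⌋₊ := ⟨_, rfl⟩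
  have hD1 : (D : ℝ) ≤ Cd * (p : ℝ) ^ (ε / 8) := by rw [hD]; exact Nat.floor_le (by positivity)
  have hDP : ∀ m : ℕ, 0 < m → m < p → (P.filter (· ∣ m)).card ≤ D := by
    intro m hm hmp
    rw [hD]
    apply Nat.le_floor
    have h1 : (P.filter (· ∣ m)).card ≤ m.divisors.card := by
      apply Finset.card_le_card
      intro a ha
      rw [Finset.mem_filter] at ha
      rw [Nat.mem_divisors]
      exact ⟨ha.2, by omega⟩
    have h2 : ((P.filter (· ∣ m)).card : ℝ) ≤ m.divisors.card := by exact_mod_cast h1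
    refine h2.trans ((hdiv m (by omega)).trans ?_)
    have h3 : (m : ℝ) ≤ p := by exact_mod_cast hmp.le
    have h4 : (m : ℝ) ^ (ε / 8) ≤ (p : ℝ) ^ (ε / 8) :=
      Real.rpow_le_rpow (Nat.cast_nonneg _) h3 (by positivity)
    gcongr
  have hpne : p ≠ 2 := by
    intro h
    rw [h] at q4
    norm_num at q4
  have hE' := hEn p N Y D P 𝓜 hN1 h8 hYN
    (fun a ha => ⟨(hPmem a ha).1, (hPmem a ha).2, hcop a ha⟩) hDP hsep
  rw [← hX] at hE'
  have hM' := hMom p hpne B hBp β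
  have hcore2 : X * (B * ((p : ℝ) ^ (-δ) / 2)) ≤
      ∑ x : ZMod p, (vv p P 𝓜 N x : ℝ) * TB p β B x := by
    refine le_trans ?_ hcore
    have e : X * (B * ((p : ℝ) ^ (-δ) / 2)) = (P.card : ℝ) * 𝓜.card * (B * (V / 2)) := by
      rw [hX, hVd]
      ring
    rw [e]
    have h1 : V / 2 ≤ V - 2 * Y * B - N * (2 * Real.pi * B / G) := by linarith
    gcongr
  have hcomb := comb p r hr0 CM CE hCM hCE β P 𝓜 N B X D ((p : ℝ) ^ (-δ) / 2) hX hXpos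
    (Nat.cast_nonneg _) hcop hM' hE' hBr hBpos (by positivity) hcore2
  have hPlow : N * (p : ℝ) ^ (-(2 * δ)) / (1040 * (B : ℝ) ^ 2) ≤ P.card := by
    rw [div_le_iff₀ (by positivity)]
    have h1 : V / (16 * B) ≤ 65 * B * (p : ℝ) ^ δ * P.card := by
      refine hY3.trans (hYcard.trans ?_)
      gcongr
    rw [div_le_iff₀ (by positivity)] at h1
    have e : (p : ℝ) ^ (-(2 * δ)) = (p : ℝ) ^ (-δ) * (p : ℝ) ^ (-δ) := by
      rw [← Real.rpow_add hp0]; congr 1; ring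
    have e2 : (p : ℝ) ^ (-δ) * (p : ℝ) ^ δ = 1 := by
      rw [← Real.rpow_add hp0]; simp
    have h2 := mul_le_mul_of_nonneg_right h1 (by positivity : 0 ≤ (p : ℝ) ^ (-δ))
    calc (N : ℝ) * (p : ℝ) ^ (-(2 * δ)) = V * (p : ℝ) ^ (-δ) := by rw [e, hVd]; ring
      _ ≤ _ := h2
      _ = _ := by linear_combination (1040 * (B : ℝ) ^ 2 * P.card) * e2
  refine final p (Real.sqrt p) ε δ K Cd X D N 𝓜.card P.card B w r hp1 hsq hε hε2 hδ0 hδ1 hδ2 hK0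
    hXpos (by linarith) hD1 hN0 hJpos.le hBpos hB2 hwε hX hPlow ?_ q1 q2
  have := mul_le_mul_of_nonneg_left hcomb (by positivity : (0 : ℝ) ≤ 4 ^ r)
  refine this.trans (le_of_eq ?_)
  rw [hK]
  ring

theorem stmt_LV (hM : Stmt_M) (hC : Stmt_CORE) (hCell : Stmt_CELL) : Stmt_LV := by
  intro ε hε
  obtain ⟨δ, hδ, P0, h⟩ := small hM hC hCell (min ε (1 / 2)) (lt_min hε (by norm_num))
    (min_le_right _ _)
  refine ⟨δ, hδ, P0, ?_⟩
  intro p _ hp c N hN h8 𝓜 hsep hV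
  have hp1 : (1 : ℝ) ≤ p := by exact_mod_cast (Fact.out : p.Prime).one_le
  refine (h p hp c N ((Real.rpow_le_rpow_of_exponent_le hp1 (min_le_left _ _)).trans hN) h8 𝓜
    hsep hV).trans ?_
  apply Real.rpow_le_rpow_of_exponent_le hp1
  have := min_le_left ε (1 / 2)
  linarith

end Pool.Agent.Work.AP90.helper30
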